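import Mathlib
import Pool.Agent.V11150.ForcingTime

set_option autoImplicit false

namespace Pool.Agent.Results.MP_d3b86e_co.FiniteForcingTime

open Pool.Agent.V11150.BuilderChooser

/-- Q1 of MP_d3b86e_co: `ρ(k, g)` is finite for all `k, g ≥ 3`, under both readings of the forcing
time, with a bound that does not depend on `g`. -/
theorem result (k g : ℕ) (hk : 3 ≤ k) (_ : 3 ≤ g) :
    rhoGirthAt k g < ⊤ ∧ rhoGirthBy k g < ⊤ ∧ rhoGirthAt k g ≤ (twr (k - 2) : ℕ) := by
  have h := rhoGirthAt_le k g hk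
  have h2 : rhoGirthAt k g < ⊤ := lt_of_le_of_lt h (ENat.natCast_lt_top _)
  exact ⟨h2, lt_of_le_of_lt (rhoGirthBy_le_rhoGirthAt k g) h2, h⟩

end Pool.Agent.Results.MP_d3b86e_co.FiniteForcingTime
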